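import Pool.Agent.TH50.DQ.LineDefs
import Pool.Agent.H337R2.LP.BAbs
import Pool.Agent.H97R2.LPB.BMain

/-!
# The archimedean bound for `1, Li₁(1/Q), Li₂(1/Q)`, `Q ≤ -2` (job 4182)

The determinant bound `B_abs` for a general weight bounded by a multiple of `ww`, and `B_main`.
-/

open Polynomial MeasureTheory Filter

namespace Pool.Agent.TH50.DQ

open Pool.Agent.LP

noncomputable section

/-- polynomial (in `y`, complex) times a weight bounded by `ww` is integrable -/
private lemma gen_int (a b : ℕ) (G : ℝ → ℂ) (hG : Measurable G) (c : ℝ) (hc : 0 ≤ c)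
    (hb : ∀ y, ‖G y‖ ≤ c * ww a b y) (f : ℂ[X]) :
    Integrable (fun y : ℝ => f.eval (y : ℂ) * G y) := by
  obtain ⟨C, k, hC, hw⟩ := ww_bound a b
  obtain ⟨C', hC', hf⟩ := BA_poly f
  have hm : AEStronglyMeasurable (fun y : ℝ => f.eval (y : ℂ) * G y) := by
    apply Measurable.aestronglyMeasurable
    apply Measurable.mul _ hG
    exact (f.continuous.comp Complex.continuous_ofReal).measurable
  have h0 : Integrable (fun y : ℝ => ‖f.eval (y : ℂ) * G y‖) := by
    apply BA_integrable _ hm.norm (C' * (c * C)) (f.natDegree + k)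
    intro y
    rw [abs_of_nonneg (norm_nonneg _), norm_mul, pow_add]
    have h1 := hf y (y : ℂ) (by rw [Complex.norm_real, Real.norm_eq_abs]; linarith)
    have h3 : ‖G y‖ ≤ c * (C * (1 + |y|) ^ k / Real.cosh (Real.pi * y)) :=
      (hb y).trans (mul_le_mul_of_nonneg_left (hw y) hc)
    calc ‖f.eval (y : ℂ)‖ * ‖G y‖
        ≤ (C' * (1 + |y|) ^ f.natDegree) * (c * (C * (1 + |y|) ^ k / Real.cosh (Real.pi * y))) :=
          mul_le_mul h1 h3 (norm_nonneg _) (by positivity)
      _ = _ := by ring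
  exact (integrable_norm_iff hm).mp h0

/-- the determinant bound for a general weight bounded by a multiple of `ww` -/
theorem abs_det_gen (a b m : ℕ) (Lg : ℚ[X] →ₗ[ℚ] ℚ) (G : ℝ → ℂ) (hG : Measurable G) (c : ℝ)
    (hc : 0 ≤ c) (hb : ∀ y, ‖G y‖ ≤ c * ww a b y)
    (hA : ∀ f : ℚ[X], ((Lg f : ℚ) : ℂ) = ∫ y : ℝ, aeval (zl y) f * G y)
    (q : ℕ → ℝ[X]) (hq : ∀ i < m, (q i).Monic ∧ (q i).natDegree = i) :
    |(((Matrix.of fun i j : Fin m => Lg (X ^ ((i : ℕ) + (j : ℕ)))).det : ℚ) : ℝ)| ≤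
      (m.factorial : ℝ) * (c ^ m * ∏ i ∈ Finset.range m, ∫ y : ℝ, (q i).eval y ^ 2 * ww a b y) := by
  let N : ℂ[X] →ₗ[ℂ] ℂ :=
    { toFun := fun f => ∫ y : ℝ, f.eval (y : ℂ) * G y
      map_add' := fun f g => by
        rw [← integral_add (gen_int a b G hG c hc hb f) (gen_int a b G hG c hc hb g)]
        congr 1
        ext y
        rw [eval_add, add_mul]
      map_smul' := fun c f => by
        rw [RingHom.id_apply, smul_eq_mul, ← integral_const_mul]
        congr 1
        ext y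
        rw [eval_smul, smul_eq_mul, mul_assoc] }
  have hN : ∀ f : ℂ[X], N f = ∫ y : ℝ, f.eval (y : ℂ) * G y := fun f => rfl
  -- the determinant in terms of `N`
  have h1 : (((Matrix.of fun i j : Fin m => Lg (X ^ ((i : ℕ) + (j : ℕ)))).det : ℚ) : ℂ) =
      (Matrix.of fun i j : Fin m =>
      (Complex.I ^ (i : ℕ)) * (Complex.I ^ (j : ℕ)) *
        (Matrix.of fun i j : Fin m => N ((X - C (Complex.I / 2)) ^ (i : ℕ) *
          (X - C (Complex.I / 2)) ^ (j : ℕ))) i j).det := by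
    have e0 : ((Matrix.of fun i j : Fin m => Lg (X ^ ((i : ℕ) + (j : ℕ)))).det : ℂ) =
      ((algebraMap ℚ ℂ).mapMatrix (Matrix.of fun i j : Fin m =>
        Lg (X ^ ((i : ℕ) + (j : ℕ))))).det := by
      rw [← RingHom.map_det]; rfl
    rw [e0]
    congr 1
    ext i j
    simp only [RingHom.mapMatrix_apply, Matrix.map_apply, Matrix.of_apply]
    have e1 : (algebraMap ℚ ℂ) (Lg (X ^ ((i : ℕ) + (j : ℕ)))) =
      ((Lg (X ^ ((i : ℕ) + (j : ℕ))) : ℚ) : ℂ) := rfl
    rw [e1, hA, hN, ← integral_const_mul]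
    congr 1
    ext y
    rw [map_pow, aeval_X, ← pow_add, ← pow_add, eval_pow, eval_sub, eval_X, eval_C, ← mul_assoc,
      ← mul_pow]
    congr 2
    unfold zl
    have hI := Complex.I_mul_I
    linear_combination (1/2 : ℂ) * hI
  have h2 : ‖(((Matrix.of fun i j : Fin m => Lg (X ^ ((i : ℕ) + (j : ℕ)))).det : ℚ) : ℂ)‖ =
      ‖(Matrix.of fun i j : Fin m =>
      N ((q i).map (algebraMap ℝ ℂ) * (q j).map (algebraMap ℝ ℂ))).det‖ := by
    rw [h1, BA_det_scale m _ (fun i => Complex.I ^ i) (fun i => by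
      rw [norm_pow, Complex.norm_I, one_pow])]
    rw [BA_det_monic N m (fun i => (X - C (Complex.I / 2)) ^ i) (fun i _ =>
      ⟨(monic_X_sub_C _).pow i, by rw [natDegree_pow, natDegree_X_sub_C, mul_one]⟩)]
    rw [BA_det_monic N m (fun i => (q i).map (algebraMap ℝ ℂ)) (fun i hi =>
      ⟨(hq i hi).1.map _, by rw [natDegree_map, (hq i hi).2]⟩)]
  have h3 : ‖(((Matrix.of fun i j : Fin m => Lg (X ^ ((i : ℕ) + (j : ℕ)))).det : ℚ) : ℂ)‖ =
      |(((Matrix.of fun i j : Fin m => Lg (X ^ ((i : ℕ) + (j : ℕ)))).det : ℚ) : ℝ)| := by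
    rw [Complex.norm_ratCast]
  rw [← h3, h2]
  -- one entry
  have hent : ∀ f g : ℝ[X], ‖N (f.map (algebraMap ℝ ℂ) * g.map (algebraMap ℝ ℂ))‖ ^ 2 ≤
      (c * ∫ y : ℝ, f.eval y ^ 2 * ww a b y) * (c * ∫ y : ℝ, g.eval y ^ 2 * ww a b y) := by
    intro f g
    have hfg : Integrable (fun y : ℝ => |f.eval y| * |g.eval y| * ww a b y) := by
      have := (BA_int_real a b (f * g)).abs
      refine this.congr (Filter.Eventually.of_forall fun y => ?_)
      simp only [eval_mul, abs_mul, abs_of_nonneg (ww_nonneg a b y)]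
    have h1 : ‖N (f.map (algebraMap ℝ ℂ) * g.map (algebraMap ℝ ℂ))‖ ≤
        c * ∫ y : ℝ, |f.eval y| * |g.eval y| * ww a b y := by
      rw [hN, ← integral_const_mul]
      refine (norm_integral_le_integral_norm _).trans ?_
      apply integral_mono_of_nonneg (Filter.Eventually.of_forall fun y => norm_nonneg _)
        (hfg.const_mul c)
      refine Filter.Eventually.of_forall fun y => ?_
      have e1 : ∀ h : ℝ[X], (h.map (algebraMap ℝ ℂ)).eval (y : ℂ) = ((h.eval y : ℝ) : ℂ) := by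
        intro h
        rw [eval_map_algebraMap]
        exact Polynomial.aeval_algebraMap_apply_eq_algebraMap_eval y h
      have h2 := hb y
      simp only [eval_mul, norm_mul]
      rw [e1, e1, Complex.norm_real, Complex.norm_real, Real.norm_eq_abs, Real.norm_eq_abs]
      calc |f.eval y| * |g.eval y| * ‖G y‖ ≤ |f.eval y| * |g.eval y| * (c * ww a b y) :=
            mul_le_mul_of_nonneg_left h2 (by positivity)
        _ = _ := by ring
    calc _ ≤ (c * ∫ y : ℝ, |f.eval y| * |g.eval y| * ww a b y) ^ 2 :=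
          pow_le_pow_left₀ (norm_nonneg _) h1 2
      _ = c ^ 2 * (∫ y : ℝ, |f.eval y| * |g.eval y| * ww a b y) ^ 2 := by ring
      _ ≤ c ^ 2 * ((∫ y : ℝ, f.eval y ^ 2 * ww a b y) * ∫ y : ℝ, g.eval y ^ 2 * ww a b y) :=
          mul_le_mul_of_nonneg_left (BA_CS a b f g) (by positivity)
      _ = _ := by ring
  have h4 := BA_abs_det m (Matrix.of fun i j : Fin m =>
      N ((q i).map (algebraMap ℝ ℂ) * (q j).map (algebraMap ℝ ℂ)))
    (fun i => c * ∫ y : ℝ, (q i).eval y ^ 2 * ww a b y)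
    (fun i => mul_nonneg hc
      (integral_nonneg fun y => mul_nonneg (sq_nonneg _) (ww_nonneg a b y)))
    (fun i j => by
      rw [Matrix.of_apply]
      exact hent (q i) (q j))
  refine h4.trans (le_of_eq ?_)
  rw [Finset.prod_mul_distrib, Finset.prod_const, Finset.card_range]

/-! ### the weight -/

private lemma wQ_nonpos {Q : ℤ} (hQ : Q ≤ -2) : wQ Q ≤ 0 := by
  have h1 : (Q : ℝ) ≤ -2 := by exact_mod_cast hQ
  have h2 : (1 : ℝ) ≤ |(Q : ℝ)| := by
    rw [abs_of_nonpos (by linarith)]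
    linarith
  have := Real.log_nonneg h2
  unfold wQ
  linarith

private lemma kerQ_le {Q : ℤ} (hQ : Q ≤ -2) (α β y : ℝ) :
    ‖kerQ Q α β y‖ ≤ (|α + β * wQ Q| + |β| * Real.pi) / Real.cosh (Real.pi * y) := by
  have hc := Real.cosh_pos (Real.pi * y)
  have hk : H757R2.LP.kap y ≤ 1 / Real.cosh (Real.pi * y) := by
    unfold H757R2.LP.kap
    rw [div_le_div_iff₀ (by positivity) hc]
    linarith
  have hk0 := H757R2.LP.kap_pos y
  have hk' := H757R2.LP.kap'_le y
  have h1 : ‖Complex.exp (wQ Q * zl y)‖ ≤ 1 := by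
    rw [Complex.norm_exp]
    have : ((wQ Q : ℂ) * zl y).re = wQ Q / 2 := by
      unfold zl
      simp
      ring
    rw [this, Real.exp_le_one_iff]
    linarith [wQ_nonpos hQ]
  unfold kerQ
  rw [norm_mul]
  have h2 : ‖(((α + β * wQ Q : ℝ) : ℂ) * (H757R2.LP.kap y : ℂ) +
      (β : ℂ) * (-Complex.I * (H757R2.LP.kap' y : ℂ)))‖ ≤
      (|α + β * wQ Q| + |β| * Real.pi) * H757R2.LP.kap y := by
    refine (norm_add_le _ _).trans ?_
    rw [norm_mul, norm_mul, norm_mul, norm_neg, Complex.norm_I, one_mul, Complex.norm_real,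
      Complex.norm_real, Complex.norm_real, Complex.norm_real, Real.norm_eq_abs, Real.norm_eq_abs,
      Real.norm_eq_abs, Real.norm_eq_abs, abs_of_pos hk0]
    have := mul_le_mul_of_nonneg_left hk' (abs_nonneg β)
    linarith
  calc _ ≤ 1 * ((|α + β * wQ Q| + |β| * Real.pi) * H757R2.LP.kap y) :=
        mul_le_mul h1 h2 (norm_nonneg _) zero_le_one
    _ ≤ (|α + β * wQ Q| + |β| * Real.pi) * (1 / Real.cosh (Real.pi * y)) := by
        rw [one_mul]
        exact mul_le_mul_of_nonneg_left hk (by have := Real.pi_pos; positivity)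
    _ = _ := by ring

private lemma GwQ_le {Q : ℤ} (hQ : Q ≤ -2) (a b : ℕ) (α β y : ℝ) :
    ‖GwQ Q a b α β y‖ ≤ (|α + β * wQ Q| + |β| * Real.pi) * ww a b y := by
  unfold GwQ ww
  rw [norm_mul, norm_div]
  calc ‖aeval (zl y) (An a)‖ / ‖aeval (zl y) (Pn a b)‖ * ‖kerQ Q α β y‖
      ≤ ‖aeval (zl y) (An a)‖ / ‖aeval (zl y) (Pn a b)‖ *
        ((|α + β * wQ Q| + |β| * Real.pi) / Real.cosh (Real.pi * y)) :=
        mul_le_mul_of_nonneg_left (kerQ_le hQ α β y) (by positivity)
    _ = _ := by ring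

private lemma GwQ_meas (Q : ℤ) (a b : ℕ) (α β : ℝ) : Measurable (GwQ Q a b α β) := by
  unfold GwQ kerQ
  apply Measurable.mul
  · exact (cont_aeval _).measurable.div (cont_aeval _).measurable
  · have h1 : Continuous fun y : ℝ => Complex.exp (wQ Q * zl y) :=
      Complex.continuous_exp.comp (continuous_const.mul zl_cont)
    have h2 : Continuous fun y : ℝ => ((α + β * wQ Q : ℝ) : ℂ) * (H757R2.LP.kap y : ℂ) +
        (β : ℂ) * (-Complex.I * (H757R2.LP.kap' y : ℂ)) :=
      (continuous_const.mul (Complex.continuous_ofReal.comp H757R2.LP.kap_cont)).add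
        (continuous_const.mul (continuous_const.mul
          (Complex.continuous_ofReal.comp H757R2.LP.kap'_cont)))
    exact (h1.mul h2).measurable

theorem archN_of (h : S_line) : S_archN := by
  intro Q hQ α β γ hrel
  obtain ⟨c, hc⟩ : ∃ c : ℝ, c = |(α : ℝ) + β * wQ Q| + |(β : ℝ)| * Real.pi + 1 := ⟨_, rfl⟩
  have hc0 : 0 < c := by
    rw [hc]
    have := Real.pi_pos
    positivity
  refine ⟨c, hc0, ?_⟩
  have hs := LPB.ZZ97.nlogn_small 10 (1 / 10) (by norm_num)
  filter_upwards [B_main, hs, eventually_ge_atTop 5] with n hB hsn hn5 m hm1 hm2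
  obtain ⟨q, hq, hqi⟩ := hB m hm1 hm2
  have hn5R : (5 : ℝ) ≤ n := by exact_mod_cast hn5
  have hb : ∀ y, ‖GwQ Q n (5 * n) α β y‖ ≤ c * ww n (5 * n) y := by
    intro y
    refine (GwQ_le hQ n (5 * n) α β y).trans ?_
    exact mul_le_mul_of_nonneg_right (by rw [hc]; linarith) (ww_nonneg _ _ y)
  have hA : ∀ f : ℚ[X], ((L Q n (5 * n) α β γ f : ℚ) : ℂ) =
      ∫ y : ℝ, aeval (zl y) f * GwQ Q n (5 * n) α β y := by
    intro f
    have h1 := (h Q hQ n (5 * n) (by omega) (by omega) (α : ℚ) (β : ℚ) (γ : ℚ)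
      (by push_cast; exact hrel) f).2
    rw [h1]
    push_cast
    rfl
  have h1 := abs_det_gen n (5 * n) m (L Q n (5 * n) α β γ) (GwQ Q n (5 * n) α β)
    (GwQ_meas Q n (5 * n) α β) c hc0.le hb hA q hq
  have hfac : (m.factorial : ℝ) ≤ Real.exp (m * Real.log m) := by
    have hm0 : (0 : ℝ) < m := by
      have : 0 < m := by omega
      exact_mod_cast this
    rw [mul_comm, Real.exp_mul, Real.exp_log hm0, Real.rpow_natCast]
    exact_mod_cast Nat.factorial_le_pow m
  have hmR1 : (4 : ℝ) * n - 1 ≤ m := by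
    have : 4 * n ≤ m + 1 := by omega
    have : (4 : ℝ) * n ≤ m + 1 := by exact_mod_cast this
    linarith
  have hmR2 : (m : ℝ) ≤ 4 * n + 1 := by exact_mod_cast hm2
  have hlogn : 1 ≤ Real.log n := by
    rw [Real.le_log_iff_exp_le (by linarith)]
    linarith [Real.exp_one_lt_d9]
  have hlogm : Real.log m ≤ 2 * Real.log n := by
    rw [two_mul, ← Real.log_mul (by positivity) (by positivity)]
    apply Real.log_le_log (by linarith)
    nlinarith
  have b1 : (m : ℝ) * Real.log m ≤ 10 * (n * Real.log n) := by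
    have : (m : ℝ) ≤ 5 * n := by linarith
    have hl0 : 0 ≤ Real.log m := Real.log_nonneg (by linarith)
    calc (m : ℝ) * Real.log m ≤ (5 * n) * (2 * Real.log n) := mul_le_mul this hlogm hl0 (by positivity)
      _ = 10 * (n * Real.log n) := by ring
  have hdd : (Matrix.of fun i j : Fin m => L Q n (5 * n) α β γ (X ^ ((i : ℕ) + (j : ℕ)))).det =
      DD Q n (5 * n) m α β γ := rfl
  rw [hdd] at h1
  refine h1.trans ?_
  calc (m.factorial : ℝ) * (c ^ m * ∏ i ∈ Finset.range m, ∫ y : ℝ, (q i).eval y ^ 2 * ww n (5 * n) y)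
      ≤ Real.exp (m * Real.log m) *
        (c ^ m * Real.exp (4 * (n : ℝ) ^ 2 * Real.log n - 28.5 * (n : ℝ) ^ 2)) := by
        apply mul_le_mul hfac (mul_le_mul_of_nonneg_left hqi (by positivity)) _ (Real.exp_pos _).le
        apply mul_nonneg (by positivity)
        exact Finset.prod_nonneg fun i _ => integral_nonneg fun y =>
          mul_nonneg (sq_nonneg _) (ww_nonneg _ _ y)
    _ = c ^ m * (Real.exp (m * Real.log m) *
        Real.exp (4 * (n : ℝ) ^ 2 * Real.log n - 28.5 * (n : ℝ) ^ 2)) := by ring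
    _ ≤ c ^ m * Real.exp (4 * (n : ℝ) ^ 2 * Real.log n - 28.4 * (n : ℝ) ^ 2) := by
        apply mul_le_mul_of_nonneg_left _ (by positivity)
        rw [← Real.exp_add]
        apply Real.exp_le_exp.2
        linarith

end

end Pool.Agent.TH50.DQ
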